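import Pool.Agent.Q225.GH.Stm

/-! GH-CYCF (helper44): boundaries of faces are cycles -/

set_option autoImplicit false

namespace Pool.Agent.Q44.GH

open Finset Pool.Agent.Q225.GH

section

variable {V : Type} [Fintype V] [DecidableEq V] {H : SimpleGraph V} [DecidableRel H.Adj]

open Classical in
/-- the indicator of the face -/
noncomputable def ind (σ : Equiv.Perm H.Dart) (f : Faces σ) (d : H.Dart) : ZMod 2 :=
  if (Quotient.mk _ d : Faces σ) = f then 1 else 0

/-- a dart and the next dart of the face -/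
theorem mk_next (σ : Equiv.Perm H.Dart) (d : H.Dart) :
    (Quotient.mk _ d : Faces σ) = Quotient.mk _ (σ d.symm) := by
  refine Quotient.sound ?_
  refine ⟨1, ?_⟩
  rw [zpow_one]
  rfl

theorem ind_symm (σ : Equiv.Perm H.Dart) (f : Faces σ) (d : H.Dart) :
    ind σ f d.symm = ind σ f (σ d) := by
  unfold ind
  rw [mk_next σ d.symm, SimpleGraph.Dart.symm_symm]

theorem on_fch (σ : Equiv.Perm H.Dart) (f : Faces σ) (d : H.Dart) :
    on (fch σ f) d = ind σ f d + ind σ f d.symm := by
  classical
  have h1 : ∀ d' : H.Dart, (if d'.edge = d.edge ∧ (Quotient.mk _ d' : Faces σ) = f then (1 : ZMod 2)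
      else 0) = (if d' = d then ind σ f d' else 0) + if d' = d.symm then ind σ f d' else 0 := by
    intro d'
    unfold ind
    by_cases h2 : d' = d
    · subst h2
      rw [if_pos rfl, if_neg (SimpleGraph.Dart.symm_ne d').symm, add_zero]
      by_cases h3 : (Quotient.mk _ d' : Faces σ) = f
      · rw [if_pos ⟨rfl, h3⟩, if_pos h3]
      · rw [if_neg fun h => h3 h.2, if_neg h3]
    · by_cases h4 : d' = d.symm
      · subst h4
        rw [if_neg h2, if_pos rfl, zero_add]
        by_cases h3 : (Quotient.mk _ d.symm : Faces σ) = f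
        · rw [if_pos ⟨SimpleGraph.Dart.edge_symm d, h3⟩, if_pos h3]
        · rw [if_neg fun h => h3 h.2, if_neg h3]
      · rw [if_neg h2, if_neg h4, add_zero, if_neg]
        rintro ⟨h5, -⟩
        rcases (SimpleGraph.dart_edge_eq_iff d' d).1 h5 with h6 | h6
        · exact h2 h6
        · exact h4 h6
  unfold on fch
  rw [sum_filter]
  rw [sum_congr rfl fun d' _ => h1 d', sum_add_distrib, sum_ite_eq', sum_ite_eq',
    if_pos (mem_univ _), if_pos (mem_univ _)]

end

theorem t_CYCF : S_CYCF := by
  intro V _ _ H _ σ hσ f v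
  rw [sum_congr rfl fun d _ => on_fch σ f d, sum_add_distrib]
  have h1 : ∀ d : H.Dart, (σ d).fst = d.fst := fun d => ((hσ d (σ d)).1 ⟨1, by rw [zpow_one]⟩).symm
  have h2 : ∑ d : H.Dart with d.fst = v, ind σ f d.symm = ∑ d : H.Dart with d.fst = v, ind σ f d := by
    rw [sum_congr rfl fun d _ => ind_symm σ f d]
    refine sum_bij (fun d _ => σ d) ?_ ?_ ?_ ?_
    · intro d hd
      rw [mem_filter] at hd ⊢
      exact ⟨mem_univ _, (h1 d).trans hd.2⟩
    · intro d _ d' _ h
      exact σ.injective h
    · intro d hd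
      rw [mem_filter] at hd
      refine ⟨σ.symm d, mem_filter.2 ⟨mem_univ _, ?_⟩, σ.apply_symm_apply d⟩
      rw [← h1, σ.apply_symm_apply]
      exact hd.2
    · intro d _
      rfl
  rw [h2]
  exact CharTwo.add_self_eq_zero _

end Pool.Agent.Q44.GH
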